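import Pool.Agent.H15.DSep4

set_option autoImplicit false

namespace Pool.Agent.Results.MP_1644e0_gt.Counterexample

open Pool.Agent.H15.DSep

/-- `X` has a sigma-disjoint pi-base. -/
def HasSigmaDisjointPiBase (X : Type) [TopologicalSpace X] : Prop :=
  ∃ B : ℕ → Set (Set X), (∀ n, ∀ U ∈ B n, IsOpen U ∧ U.Nonempty) ∧
    (∀ n, (B n).Pairwise Disjoint) ∧
    ∀ V : Set X, IsOpen V → V.Nonempty → ∃ n, ∃ U ∈ B n, U ⊆ V

theorem result : ∃ (X : Type) (_ : TopologicalSpace X), CompactSpace X ∧ T2Space X ∧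
    IsSelDSep X ∧ ¬ HasSigmaDisjointPiBase X := by
  obtain ⟨ι, h1, h2⟩ := beth_cube
  exact ⟨ι → Bool, inferInstance, inferInstance, inferInstance, h2,
    fun ⟨B, a, b, c⟩ => cube_no_pibase h1 B a b c⟩

end Pool.Agent.Results.MP_1644e0_gt.Counterexample
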